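import Pool.Agent.R341.Uni11

set_option autoImplicit false

/-!
Weak expansions (`WU`): strict monotonicity below base `2`, weakly admissible sequences and
good indices.
-/

namespace Pool.Agent.K3h15.UB

open Pool.Agent.R341.Uni Filter Topology

/-- in a base below `2` weak expansions are strictly monotone -/
lemma wu_lt {q : ℝ} (hq : 1 < q) (hq2 : q < 2) {d e : ℕ → Bool} {p : ℕ} (h : ∀ i < p, d i = e i)
    (hd : d p = false) (he : e p = true) (h1 : P q (sh (p + 1) d) ≤ 1)
    (h2 : 1 / (q - 1) - 1 ≤ P q (sh (p + 1) e)) : P q d < P q e := by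
  have h0 := diff_eq hq h
  have h5 : 1 < 1 / (q - 1) := by
    rw [lt_div_iff₀ (by linarith)]; linarith
  have h3 : 0 < P q (sh p e) - P q (sh p d) := by
    rw [P_succ hq (sh p e), P_succ hq (sh p d), sh_sh, sh_sh, sh_apply, sh_apply, add_zero, hd, he,
      ← sub_div]
    apply div_pos _ (by linarith)
    simp only [dg_true, dg_false]
    linarith
  have h4 : 0 < (P q (sh p e) - P q (sh p d)) / q ^ p := div_pos h3 (by positivity)
  linarith

lemma wu_sh {q : ℝ} {d : ℕ → Bool} (h : WU q d) (m : ℕ) : WU q (sh m d) := by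
  intro n
  have := h (m + n)
  rw [sh_sh]
  exact this

/-- weak expansions are unique below base `2` -/
lemma wu_unique {q : ℝ} (hq : 1 < q) (hq2 : q < 2) {d e : ℕ → Bool} (hd : WU q d) (he : WU q e)
    (h : P q d = P q e) : d = e := by
  rcases trich d e with h1 | ⟨p, hp1, hp2, hp3⟩ | ⟨p, hp1, hp2, hp3⟩
  · exact h1
  · exact absurd h (wu_lt hq hq2 hp1 hp2 hp3 ((hd p).1 hp2) ((he p).2 hp3)).ne
  · exact absurd h (wu_lt hq hq2 hp1 hp2 hp3 ((he p).1 hp2) ((hd p).2 hp3)).ne'

/-- from numerical to lexicographic conditions -/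
lemma kp_wu {q : ℝ} (hq : 1 < q) {t : ℕ → Bool} (ht : t 0 = false) (h1 : P q (sh 1 t) = 1)
    (hU : WU q (sh 1 t)) {c : ℕ → Bool} (h0 : c 0 = false → P q (sh 1 c) < 1)
    (h1' : c 0 = true → 1 / (q - 1) - 1 < P q (sh 1 c)) : Kp t c := by
  have aux : ∀ c : ℕ → Bool, c 0 = false → P q (sh 1 c) < 1 → Kp t c := by
    intro c hc hlt
    have h3 : Lt (sh 1 c) (sh 1 t) := by
      rcases trich (sh 1 c) (sh 1 t) with h | h | h
      · rw [h, h1] at hlt; exact absurd hlt (lt_irrefl _)
      · exact h
      · obtain ⟨p, hp1, hp2, hp3⟩ := h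
        have := wlt_of_left hq hp1 hp2 hp3 ((hU p).1 hp2)
        linarith
    obtain ⟨p, hp1, hp2, hp3⟩ := h3
    refine ⟨p + 1, fun i hi => ?_, ?_, ?_⟩
    · rcases Nat.eq_zero_or_pos i with rfl | hi0
      · simp [ht]
      · obtain ⟨i', rfl⟩ : ∃ i', i = i' + 1 := ⟨i - 1, by omega⟩
        have := hp1 i' (by omega)
        simp only [sh_apply] at this
        rw [hc, Bool.xor_false, add_comm i' 1, this]
    · rw [hc, Bool.xor_false, add_comm p 1]; exact hp2
    · rw [add_comm p 1]; exact hp3
  cases hc : c 0
  · exact aux c hc (h0 hc)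
  · have h2 := aux (fun i => !c i) (by simp [hc]) (by
      have e : sh 1 (fun i => !c i) = fun i => !(sh 1 c i) := rfl
      rw [e, P_compl hq]
      have := h1' hc
      linarith)
    have := h2.compl
    simpa using this

/-- weakly admissible sequences: equality is allowed after a digit `0` -/
def WAdm (t : ℕ → Bool) : Prop :=
  t 0 = false ∧ t 1 = true ∧ (∀ m, t m = true → Kp t (sh m t)) ∧
    (∀ m, 1 ≤ m → t m = false → Kp t (sh m t) ∨ ∀ i, t (m + i) = t i)

lemma wadm_of {q : ℝ} (hq : 1 < q) (hq2 : q < 2) {t : ℕ → Bool} (ht : t 0 = false)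
    (h1 : P q (sh 1 t) = 1) (hU : WU q (sh 1 t))
    (hs : ∀ n, t n = true → 1 / (q - 1) - 1 < P q (sh (n + 1) t)) : WAdm t := by
  refine ⟨ht, ?_, fun m hm => ?_, fun m hm0 hm => ?_⟩
  · by_contra hc
    have hc' : t 1 = false := by simpa using hc
    have h2 := (hU 0).1 (by simpa using hc')
    have h3 := P_succ hq (sh 1 t)
    rw [h1, sh_apply, add_zero, hc', dg_false, zero_add, eq_div_iff (by linarith)] at h3
    simp only [zero_add] at h2
    linarith
  · refine kp_wu hq ht h1 hU (fun h => ?_) (fun _ => ?_)
    · rw [sh_apply, add_zero, hm] at h; exact absurd h (by decide)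
    · rw [sh_sh]; exact hs m hm
  · obtain ⟨m', rfl⟩ : ∃ m', m = m' + 1 := ⟨m - 1, by omega⟩
    have h2 := (hU m').1 (by rw [sh_apply, add_comm]; exact hm)
    rw [sh_sh, show 1 + (m' + 1) = m' + 1 + 1 by ring] at h2
    rcases lt_or_eq_of_le h2 with h3 | h3
    · left
      refine kp_wu hq ht h1 hU (fun _ => ?_) (fun h => ?_)
      · rw [sh_sh]; exact h3
      · rw [sh_apply, add_zero, hm] at h; exact absurd h (by decide)
    · right
      have h4 : sh (m' + 1 + 1) t = sh 1 t := by
        refine wu_unique hq hq2 ?_ hU (h3.trans h1.symm)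
        have := wu_sh hU (m' + 1)
        rw [sh_sh, show 1 + (m' + 1) = m' + 1 + 1 by ring] at this
        exact this
      intro i
      rcases Nat.eq_zero_or_pos i with rfl | hi0
      · rw [add_zero, hm, ht]
      · obtain ⟨i', rfl⟩ : ∃ i', i = i' + 1 := ⟨i - 1, by omega⟩
        have := congrFun h4 i'
        simp only [sh_apply] at this
        rw [show m' + 1 + (i' + 1) = m' + 1 + 1 + i' by ring, this, add_comm 1 i']

/-- no tail after a digit `0` is larger -/
lemma WAdm.not_gt {t : ℕ → Bool} (h : WAdm t) {r : ℕ} (hr : 1 ≤ r) (hr0 : t r = false) {k : ℕ}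
    (h1 : ∀ i < k, t (r + i) = t i) (h2 : t (r + k) = true) (h3 : t k = false) : False := by
  rcases h.2.2.2 r hr hr0 with ⟨k2, a1, a2, a3⟩ | h4
  · simp only [sh_apply, add_zero, hr0, Bool.xor_false] at a1 a2
    rcases Nat.lt_trichotomy k2 k with h5 | h5 | h5
    · rw [h1 k2 h5, a3] at a2; exact absurd a2 (by decide)
    · subst h5
      rw [h2] at a2; exact absurd a2 (by decide)
    · rw [a1 k h5, h3] at h2; exact absurd h2 (by decide)
  · rw [h4 k, h3] at h2; exact absurd h2 (by decide)

/-- the chain step -/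
lemma WAdm.next {t : ℕ → Bool} (h : WAdm t) {n : ℕ} (hg : Good t n) :
    ∃ n', n < n' ∧ Good t n' := by
  obtain ⟨k, hk1, hk2, hk3⟩ := h.2.2.1 n hg.1
  simp only [sh_apply, add_zero, hg.1, Bool.xor_true] at hk1 hk2
  have hk0 : 1 ≤ k := by
    rcases Nat.eq_zero_or_pos k with rfl | h0
    · rw [h.1] at hk3; exact absurd hk3 (by decide)
    · exact h0
  have hnk : t (n + k) = true := by simpa using hk2
  refine ⟨n + k, by omega, hnk, fun o ho1 ho2 ho3 => ?_⟩
  rcases Nat.lt_trichotomy o n with h1 | h1 | h1
  · obtain ⟨j, hj1, hj2⟩ := hg.2 o ho1 h1 ho3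
    exact ⟨j, by omega, hj2⟩
  · subst h1
    refine ⟨k, by omega, ?_⟩
    unfold Dif
    rw [hnk, ho3, hk3]; decide
  · by_contra hc
    push Not at hc
    unfold Dif at hc
    push Not at hc
    obtain ⟨r, rfl⟩ : ∃ r, o = n + r := ⟨o - n, by omega⟩
    have hr1 : 1 ≤ r := by omega
    have hrk : r < k := by omega
    have e1 : n + k - (n + r) = k - r := by omega
    rw [e1] at hc
    simp only [ho3, Bool.xor_true] at hc
    have htr : t r = false := by rw [← hk1 r hrk, ho3]; rfl
    refine h.not_gt hr1 htr (k := k - r) (fun i hi => ?_) ?_ ?_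
    · rw [← hk1 (r + i) (by omega), ← hc i (by omega), add_assoc]
    · rw [show r + (k - r) = k by omega]; exact hk3
    · rw [← hc (k - r) le_rfl, show n + r + (k - r) = n + k by omega, hnk]; rfl

lemma WAdm.exists_good {t : ℕ → Bool} (h : WAdm t) (B : ℕ) : ∃ n, B ≤ n ∧ 1 ≤ n ∧ Good t n := by
  induction B with
  | zero => exact ⟨1, by omega, le_rfl, h.2.1, fun o h1 h2 => absurd h2 (by omega)⟩
  | succ B ih =>
    obtain ⟨n, h1, h2, h3⟩ := ih
    obtain ⟨n', h4, h5⟩ := h.next h3
    exact ⟨n', by omega, by omega, h5⟩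

/-- first difference at a digit `1` -/
lemma WAdm.first {t : ℕ → Bool} (h : WAdm t) {o : ℕ} (ho : t o = true) :
    ∃ k, 1 ≤ k ∧ (∀ i < k, (!t (o + i)) = t i) ∧ t (o + k) = true ∧
      t k = true ∧ (∀ j, Dif t o j → k ≤ j) := by
  obtain ⟨k, h1, h2, h3⟩ := h.2.2.1 o ho
  simp only [sh_apply, add_zero, ho, Bool.xor_true] at h1 h2
  refine ⟨k, ?_, h1, by simpa using h2, h3, fun j hj => ?_⟩
  · rcases Nat.eq_zero_or_pos k with rfl | h0
    · rw [h.1] at h3; exact absurd h3 (by decide)
    · exact h0
  · by_contra hlt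
    refine hj ?_
    rw [ho, Bool.xor_true]
    exact h1 j (by omega)

/-- the periodic sequence given by a good index -/
lemma WAdm.periodic_weak {t : ℕ → Bool} (h : WAdm t) {M : ℕ} (hM : 1 ≤ M) (hg : Good t M) (m : ℕ) :
    Kp (fun i => t (i % M)) (sh m (fun i => t (i % M))) ∨
      ∀ i, xor ((fun i => t (i % M)) (m + i)) ((fun i => t (i % M)) m) = (fun i => t (i % M)) i := by
  -- reduction to `m < M`
  have hred : ∀ i, (m + i) % M = (m % M + i) % M := fun i => by rw [Nat.mod_add_mod]
  have hred0 : m % M % M = m % M := Nat.mod_mod _ _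
  suffices hs : ∀ o, o < M → (Kp (fun i => t (i % M)) (sh o (fun i => t (i % M))) ∨
      ∀ i, xor ((fun i => t (i % M)) (o + i)) ((fun i => t (i % M)) o) = (fun i => t (i % M)) i) by
    have h1 := hs (m % M) (Nat.mod_lt _ hM)
    have e : sh m (fun i => t (i % M)) = sh (m % M) (fun i => t (i % M)) := by
      funext i
      simp only [sh_apply]
      rw [hred]
    rcases h1 with h1 | h1
    · left; rw [e]; exact h1
    · right
      intro i
      have := h1 i
      simp only [hred0] at this ⊢
      rw [hred]; exact this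
  intro o ho
  have hmod : ∀ i, i < M → i % M = i := fun i hi => Nat.mod_eq_of_lt hi
  rcases Nat.eq_zero_or_pos o with rfl | ho1
  · right
    intro i
    simp [h.1]
  · obtain ⟨r, hr⟩ : ∃ r, M = o + r := ⟨M - o, by omega⟩
    have hr1 : 1 ≤ r := by omega
    have htM : t (o + r) = true := by rw [← hr]; exact hg.1
    cases hto : t o
    · -- a digit `0`: agreement up to `r` or a first difference before
      have key : (∀ i < r, t (o + i) = t i) → t r = true →
          Kp (fun i => t (i % M)) (sh o (fun i => t (i % M))) := by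
        intro hk1 htr
        refine ⟨r, fun i hi => ?_, ?_, ?_⟩
        · simp only [sh_apply, add_zero]
          rw [hmod _ (by omega), hmod _ ho, hmod _ (by omega), hto, Bool.xor_false]
          exact hk1 i (by omega)
        · simp only [sh_apply, add_zero]
          rw [← hr, Nat.mod_self, hmod _ ho, hto, h.1]; rfl
        · show t (r % M) = true
          rw [hmod _ (by omega)]; exact htr
      left
      rcases h.2.2.2 o ho1 hto with ⟨k, hk1, hk2, hk3⟩ | heq
      · simp only [sh_apply, add_zero, hto, Bool.xor_false] at hk1 hk2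
        rcases Nat.lt_or_ge k r with h5 | h5
        · refine ⟨k, fun i hi => ?_, ?_, ?_⟩
          · simp only [sh_apply, add_zero]
            rw [hmod _ (by omega), hmod _ ho, hmod _ (by omega), hto, Bool.xor_false]
            exact hk1 i hi
          · simp only [sh_apply, add_zero]
            rw [hmod _ (by omega), hmod _ ho, hto, Bool.xor_false]
            exact hk2
          · show t (k % M) = true
            rw [hmod _ (by omega)]; exact hk3
        · refine key (fun i hi => hk1 i (by omega)) ?_
          rcases Nat.lt_or_ge r k with h6 | h6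
          · rw [← hk1 r h6]; exact htM
          · obtain rfl : r = k := by omega
            exact hk3
      · exact key (fun i _ => heq i) (by rw [← heq r]; exact htM)
    · obtain ⟨k, hk0, hk1, hk2, hk3, hk4⟩ := h.first hto
      rcases Nat.lt_or_ge (o + k) M with h5 | h5
      · left
        refine ⟨k, fun i hi => ?_, ?_, ?_⟩
        · simp only [sh_apply, add_zero]
          rw [hmod _ (by omega), hmod _ ho, hmod _ (by omega), hto, Bool.xor_true]
          exact hk1 i hi
        · simp only [sh_apply, add_zero]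
          rw [hmod _ (by omega), hmod _ ho, hto, hk2]; rfl
        · show t (k % M) = true
          rw [hmod _ (by omega)]; exact hk3
      · have hrk : r ≤ k := by omega
        obtain ⟨j0, hj0, hj0'⟩ := hg.2 o ho1 ho hto
        have hkr : k = r := by
          have := hk4 j0 hj0'
          omega
        subst hkr
        obtain ⟨k', hk0', hk1', hk2', hk3', hk4'⟩ := h.first hk3
        have hMj : ∀ j, j < o → (o + (k + j)) % M = j := fun j hj => by
          rw [← add_assoc, ← hr, Nat.add_mod_left, hmod _ (by omega)]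
        rcases Nat.lt_or_ge (k + k') M with h6 | h6
        · left
          refine ⟨k + k', fun i hi => ?_, ?_, ?_⟩
          · simp only [sh_apply, add_zero]
            rw [hmod _ ho, hto, Bool.xor_true, hmod i (by omega)]
            rcases Nat.lt_or_ge i k with h7 | h7
            · rw [hmod _ (by omega)]; exact hk1 i h7
            · obtain ⟨i', rfl⟩ : ∃ i', i = k + i' := ⟨i - k, by omega⟩
              rw [hMj i' (by omega), ← hk1' i' (by omega)]
              simp
          · simp only [sh_apply, add_zero]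
            rw [hmod _ ho, hto, hMj k' (by omega), hk3']; rfl
          · show t ((k + k') % M) = true
            rw [hmod _ h6]
            exact hk2'
        · right
          -- equality on one period
          have hper : ∀ j, j < M → (!t ((o + j) % M)) = t j := by
            intro j hj
            rcases Nat.lt_trichotomy j k with h7 | h7 | h7
            · rw [hmod _ (by omega)]; exact hk1 j h7
            · subst h7
              rw [← hr, Nat.mod_self, h.1, hk3]; rfl
            · obtain ⟨i', rfl⟩ : ∃ i', j = k + i' := ⟨j - k, by omega⟩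
              rw [hMj i' (by omega), ← hk1' i' (by omega)]
              simp
          intro i
          simp only
          rw [hmod _ ho, hto, Bool.xor_true, ← hper (i % M) (Nat.mod_lt _ hM), Nat.add_mod_mod]

end Pool.Agent.K3h15.UB
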