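import Pool.Agent.K3h15.UB.A

set_option autoImplicit false

/-!
A weak expansion with strict conditions at the digits `1` is the value of a unique expansion in a
smaller base, unless it is unique itself.
-/

namespace Pool.Agent.K3h15.UB

open Pool.Agent.R341.Uni Filter Topology

/-- the error term tends to zero -/
lemma err_lim {q : ℝ} (hq : 1 < q) :
    Tendsto (fun n : ℕ => 1 / (q - 1) / q ^ n) atTop (𝓝 0) := by
  have h5 : Tendsto (fun n : ℕ => (1 / (q - 1)) * (1 / q) ^ n) atTop (𝓝 ((1 / (q - 1)) * 0)) :=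
    (tendsto_pow_atTop_nhds_zero_of_lt_one (by positivity)
      (by rw [div_lt_one (by linarith)]; exact hq)).const_mul _
  rw [mul_zero] at h5
  refine h5.congr fun n => ?_
  rw [one_div_pow, mul_one_div]

theorem H2_gen {Q : ℝ} (hQ1 : 1 < Q) (hQ2 : Q < 2) (D : ℕ → Bool) (hD : WU Q D)
    (hD1 : ∀ n, D n = true → 1 / (Q - 1) - 1 < P Q (sh (n + 1) D)) (hD2 : ¬ Un Q D) :
    ∃ q ∈ Ux (P Q D), q < Q := by
  classical
  have hex : ∃ n, D n = false ∧ P Q (sh (n + 1) D) = 1 := by
    by_contra hc
    push Not at hc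
    exact hD2 fun n => ⟨fun hn => lt_of_le_of_ne ((hD n).1 hn) (hc n hn), hD1 n⟩
  obtain ⟨hn1, hn2⟩ := Nat.find_spec hex
  have hmin : ∀ j < Nat.find hex, D j = false → P Q (sh (j + 1) D) < 1 := fun j hj hj2 => by
    refine lt_of_le_of_ne ((hD j).1 hj2) fun h => ?_
    exact Nat.find_min hex hj ⟨hj2, h⟩
  set n := Nat.find hex with hn
  -- the tail
  obtain ⟨t, htdef⟩ : ∃ t : ℕ → Bool, t = sh n D := ⟨_, rfl⟩
  have ht0 : t 0 = false := by rw [htdef, sh_apply, add_zero]; exact hn1
  have hα : P Q (sh 1 t) = 1 := by rw [htdef, sh_sh]; exact hn2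
  have hWα : WU Q (sh 1 t) := by rw [htdef, sh_sh]; exact wu_sh hD _
  have ht : WAdm t := by
    refine wadm_of hQ1 hQ2 ht0 hα hWα fun m hm => ?_
    rw [htdef, sh_sh, ← add_assoc]
    exact hD1 _ (by rw [htdef, sh_apply] at hm; exact hm)
  have hDt : ∀ i, D (n + i) = t i := fun i => by rw [htdef, sh_apply]
  -- witnesses for the positions before `n`
  have hkp : ∀ j < n, Kp t (sh j D) := fun j hj => by
    refine kp_wu hQ1 ht0 hα hWα (fun h => ?_) (fun h => ?_)
    · rw [sh_sh]; exact hmin j hj (by simpa using h)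
    · rw [sh_sh]; exact hD1 j (by simpa using h)
  have hbound : ∃ B, ∀ j < n, ∃ k < B, (∀ i < k, xor (sh j D i) (sh j D 0) = t i) ∧
      xor (sh j D k) (sh j D 0) = false ∧ t k = true := by
    choose! k hk using hkp
    refine ⟨(Finset.range n).sup k + 1, fun j hj => ⟨k j, ?_, hk j hj⟩⟩
    have := Finset.le_sup (f := k) (Finset.mem_range.2 hj)
    omega
  obtain ⟨B, hB⟩ := hbound
  -- the intermediate base
  obtain ⟨q1, hq11, hq1Q⟩ := exists_between hQ1
  have hδ : 1 < P q1 (sh 1 t) := by
    rw [← hα]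
    exact P_strict hq11 hq1Q _ (n := 0) ht.2.1
  obtain ⟨B', hB'⟩ : ∃ B : ℕ, ∀ n, B ≤ n → 1 / (q1 - 1) / q1 ^ n < P q1 (sh 1 t) - 1 := by
    have := (err_lim hq11).eventually (gt_mem_nhds (show 0 < P q1 (sh 1 t) - 1 by linarith))
    rw [Filter.eventually_atTop] at this
    exact this
  obtain ⟨M, hM1, _, hM2⟩ := ht.exists_good (max (B' + 1) (max B 2))
  have e1 : B' + 1 ≤ M := le_trans (le_max_left _ _) hM1
  have e2 : B ≤ M := le_trans (le_trans (le_max_left _ _) (le_max_right _ _)) hM1
  have e3 : 2 ≤ M := le_trans (le_trans (le_max_right _ _) (le_max_right _ _)) hM1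
  -- the periodic sequence
  set t' : ℕ → Bool := fun i => t (i % M) with ht'
  have ht'0 : t' 0 = false := by simp [ht', ht0]
  have ht's : ∀ j, j < M → t' j = t j := fun j hj => by
    show t (j % M) = t j
    rw [Nat.mod_eq_of_lt hj]
  have ht'M : t' M = false := by
    show t (M % M) = false
    rw [Nat.mod_self]; exact ht0
  have hperiod : ∀ m, sh (m + M) t' = sh m t' := fun m => by
    funext i
    rw [sh_apply, sh_apply]
    show t ((m + M + i) % M) = t ((m + i) % M)
    rw [show m + M + i = m + i + M by ring, Nat.add_mod_right]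
  -- `t'` is smaller in base `Q`
  have hlow : P Q (sh 1 t') < 1 := by
    have h0 := diff_eq hQ1 (d := sh 1 t') (e := sh 1 t) (p := M - 1) (fun i hi => by
      rw [sh_apply, sh_apply, ht's _ (by omega)])
    rw [hα, sh_sh, sh_sh, show 1 + (M - 1) = M by omega, P_succ hQ1 (sh M t'), P_succ hQ1 (sh M t),
      sh_sh, sh_sh, sh_apply, sh_apply, add_zero, ht'M, hM2.1, dg_true, dg_false,
      show M + 1 = 1 + M by ring, hperiod 1, zero_add] at h0
    have h1 := P_nonneg hQ1 (sh (1 + M) t)
    have hqM : (1 : ℝ) ≤ Q ^ (M - 1) := one_le_pow₀ hQ1.le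
    by_contra hc
    push Not at hc
    -- `1 - x = ((1 + a) / Q - x / Q) / Q ^ (M - 1)` with `x ≥ 1`
    generalize P Q (sh 1 t') = x at h0 hc
    have hs := hM2.1
    have h2 : 1 / (Q - 1) - 1 < P Q (sh (1 + M) t) := by
      have := hD1 (n + M) (by rw [hDt]; exact hs)
      rw [htdef, sh_sh, show n + (1 + M) = n + M + 1 by ring]
      exact this
    generalize P Q (sh (1 + M) t) = a at h0 h1 h2
    have h5 : 1 < 1 / (Q - 1) := by rw [lt_div_iff₀ (by linarith)]; linarith
    generalize Q ^ (M - 1) = R at h0 hqM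
    have hR : 0 < R := by linarith
    have h6 : (1 - x) * (R * Q) = 1 + a - x := by
      rw [h0]
      have : Q ≠ 0 := by linarith
      have : R ≠ 0 := hR.ne'
      field_simp
    have h7 : (1 - x) * (R * Q) ≤ (1 - x) * 1 := by
      apply mul_le_mul_of_nonpos_left _ (by linarith)
      nlinarith
    linarith
  have hup : 1 < P q1 (sh 1 t') := by
    have h1 : P q1 (sh 1 t) ≤ P q1 (sh 1 t') + 1 / (q1 - 1) / q1 ^ (M - 1) := by
      refine P_agree hq11 fun i hi => ?_
      rw [sh_apply, sh_apply, ht's _ (by omega)]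
    have h2 := hB' (M - 1) (by omega)
    linarith
  obtain ⟨qm, h1, h2, h3⟩ := P_ivt hq11 hq1Q.le (sh 1 t') hlow hup
  have hqm1 : 1 < qm := by linarith
  -- the approximating sequence
  set E := glue n D t' with hE
  set F := glue n D (cons true (fun _ => false)) with hF
  have hEF : ∀ q, 1 < q → P q E = P q F + (P q (sh 1 t') - 1) / q ^ (n + 1) := by
    intro q hq
    have h4 := diff_eq hq (d := F) (e := E) (p := n) (fun i hi => by
      rw [hF, hE, glue_lt _ _ hi, glue_lt _ _ hi])
    rw [hF, hE, sh_glue, sh_glue, P_cons hq, P_zeros, P_succ hq t', ht'0, ← hF, ← hE, dg_true,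
      dg_false] at h4
    have hq0 : q ≠ 0 := by linarith
    rw [pow_succ]
    field_simp at h4 ⊢
    linarith
  have hDF : P Q D = P Q F := by
    have h4 := diff_eq hQ1 (d := F) (e := D) (p := n) (fun i hi => by rw [hF, glue_lt _ _ hi])
    have h5 : sh n D = t := htdef.symm
    rw [hF, sh_glue, P_cons hQ1, P_zeros, h5, P_succ hQ1 t, ht0, hα, ← hF, dg_true,
      dg_false] at h4
    have : (1 + 0 : ℝ) / Q = (0 + 1) / Q := by ring
    rw [this, sub_self, zero_div] at h4
    linarith
  have hFn : F n = true := by rw [hF]; simp [glue]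
  have hE1 : P Q E < P Q D := by
    rw [hEF Q hQ1, hDF]
    have : (P Q (sh 1 t') - 1) / Q ^ (n + 1) < 0 :=
      div_neg_of_neg_of_pos (by linarith) (by positivity)
    linarith
  have hE2 : P Q D < P qm E := by
    rw [hEF qm hqm1, hDF, h3, sub_self, zero_div, add_zero]
    exact P_strict hqm1 h2 F hFn
  obtain ⟨q, h5, h6, h7⟩ := P_ivt hqm1 h2.le E hE1 hE2
  have hq1 : 1 < q := by linarith
  refine ⟨q, mem_Ux.2 ⟨hq1, by linarith, E, h7, ?_⟩, h6⟩
  refine lexnum2 hq1 ht'0 ?_ fun m => ?_
  · rw [← h3]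
    refine P_strict hqm1 h5 _ (n := 0) ?_
    rw [sh_apply, ht's _ (by omega)]
    exact ht.2.1
  · rcases Nat.lt_or_ge m n with h8 | h8
    · left
      obtain ⟨k, hkB, hk1, hk2, hk3⟩ := hB m h8
      have hED : ∀ i, i < n + M → E i = D i := by
        intro i hi
        rcases Nat.lt_or_ge i n with h9 | h9
        · rw [hE, glue_lt _ _ h9]
        · obtain ⟨i', rfl⟩ : ∃ i', i = n + i' := ⟨i - n, by omega⟩
          have := congrFun (sh_glue n D t') i'
          rw [sh_apply, ← hE] at this
          rw [this, hDt, ht's _ (by omega)]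
      simp only [sh_apply, add_zero] at hk1 hk2
      refine ⟨k, fun i hi => ?_, ?_, ?_⟩
      · simp only [sh_apply, add_zero]
        rw [hED _ (by omega), hED _ (by omega), ht's _ (by omega)]
        exact hk1 i hi
      · simp only [sh_apply, add_zero]
        rw [hED _ (by omega), hED _ (by omega)]
        exact hk2
      · rw [ht's _ (by omega)]; exact hk3
    · obtain ⟨m', rfl⟩ : ∃ m', m = n + m' := ⟨m - n, by omega⟩
      have hEt : ∀ i, E (n + i) = t' i := fun i => by
        have := congrFun (sh_glue n D t') i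
        rw [sh_apply, ← hE] at this
        exact this
      have h9 := ht.periodic_weak (show 1 ≤ M by omega) hM2 m'
      have e : sh (n + m') E = sh m' t' := by
        funext i
        rw [sh_apply, sh_apply, add_assoc, hEt]
      rcases h9 with h9 | h9
      · left
        rw [e]; exact h9
      · right
        intro i
        have := h9 i
        rw [add_assoc, hEt, hEt]
        exact this

end Pool.Agent.K3h15.UB
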