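import Pool.Agent.K3h15.UB.B
import Pool.Agent.R341.Uni15

set_option autoImplicit false

/-!
Upper semicontinuity from the right of the smallest univoque base, and closedness of all its
level sets.
-/

namespace Pool.Agent.K3h15.UB

open Pool.Agent.R341.Uni Filter Topology

/-- if the conditions for `c` are not satisfied in any smaller base then `1` has a weak
expansion -/
lemma weak_one {q : ℝ} (hq1 : 1 < q) {c : ℕ → Bool} (hc : Un q c)
    (hno : ∀ q', 1 < q' → q' < q → ¬ Un q' c) : ∃ e, WU q e ∧ P q e = 1 := by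
  -- bases
  let u : ℕ → ℝ := fun k => q - (q - 1) / ((k : ℝ) + 2)
  have hu1 : ∀ k, 1 < u k := fun k => by
    have h1 : (q - 1) / ((k : ℝ) + 2) < q - 1 := by
      rw [div_lt_iff₀ (by positivity)]
      have : (0 : ℝ) ≤ k := Nat.cast_nonneg k
      nlinarith
    show 1 < q - (q - 1) / ((k : ℝ) + 2)
    linarith
  have hu2 : ∀ k, u k < q := fun k => by
    have h1 : 0 < (q - 1) / ((k : ℝ) + 2) := div_pos (by linarith) (by positivity)
    show q - (q - 1) / ((k : ℝ) + 2) < q
    linarith
  have hu : Tendsto u atTop (𝓝 q) := by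
    have h1 : Tendsto (fun k : ℕ => (q - 1) / ((k : ℝ) + 2)) atTop (𝓝 0) := by
      refine Tendsto.div_atTop tendsto_const_nhds ?_
      exact tendsto_atTop_add_const_right _ _ tendsto_natCast_atTop_atTop
    have h2 : Tendsto (fun k : ℕ => q - (q - 1) / ((k : ℝ) + 2)) atTop (𝓝 (q - 0)) :=
      tendsto_const_nhds.sub h1
    rwa [sub_zero] at h2
  -- violations
  have hviol : ∀ k, ∃ e : ℕ → Bool, Un q e ∧ 1 ≤ P (u k) e ∧ P q e < 1 := by
    intro k
    have h1 := hno (u k) (hu1 k) (hu2 k)
    unfold Un at h1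
    push Not at h1
    obtain ⟨n, hn⟩ := h1
    cases hcn : c n
    · by_cases h2 : P (u k) (sh (n + 1) c) < 1
      · have := (hn fun _ => h2).1
        rw [hcn] at this
        exact absurd this (by decide)
      · exact ⟨sh (n + 1) c, hc.sh _, not_lt.1 h2, (hc n).1 hcn⟩
    · have h3 := (hn fun h => absurd (hcn.symm.trans h) (by decide)).2
      refine ⟨fun i => !(sh (n + 1) c i), (hc.sh _).compl hq1, ?_, ?_⟩
      · rw [P_compl (hu1 k)]; linarith
      · rw [P_compl hq1]
        have := (hc n).2 hcn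
        linarith
  choose e he1 he2 he3 using hviol
  obtain ⟨e0, φ, hφ, he0⟩ := CompactSpace.tendsto_subseq e
  refine ⟨e0, WU.lim hq1 (tendsto_const_nhds (x := q)) he0 fun k => (he1 _).wu, ?_⟩
  apply le_antisymm
  · exact le_of_tendsto' (P_tendsto hq1 (tendsto_const_nhds (x := q)) he0) fun k => (he3 _).le
  · exact ge_of_tendsto' (P_tendsto hq1 (hu.comp hφ.tendsto_atTop) he0) fun k => he2 _

/-- `n` is not covered by an agreement of a tail of `c` with `e` -/
def Rec (c e : ℕ → Bool) (n : ℕ) : Prop :=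
  c n = false ∧ ∀ j < n, c j = false → ∃ i < n - j, c (j + 1 + i) ≠ e i

section
variable {p : ℝ} {c e : ℕ → Bool}

/-- first difference of a tail after a digit `0` with the expansion of `1` -/
lemma first_diff (hp : 1 < p) (he : WU p e) (h1 : P p e = 1) (hc : Un p c) {j : ℕ}
    (hj : c j = false) : ∃ k, (∀ i < k, c (j + 1 + i) = e i) ∧ c (j + 1 + k) = false ∧
      e k = true := by
  have h2 := (hc j).1 hj
  rcases trich (sh (j + 1) c) e with h | ⟨k, a1, a2, a3⟩ | ⟨k, a1, a2, a3⟩
  · rw [h, h1] at h2; exact absurd h2 (lt_irrefl _)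
  · exact ⟨k, a1, a2, a3⟩
  · have := wlt_of_left hp a1 a2 a3 ((he k).1 a2)
    linarith

lemma Rec.next (hp : 1 < p) (hp2 : p < 2) (he : WU p e) (h1 : P p e = 1) (hc : Un p c) {n : ℕ}
    (hn : Rec c e n) : ∃ n', n < n' ∧ Rec c e n' := by
  obtain ⟨k, a1, a2, a3⟩ := first_diff hp he h1 hc hn.1
  refine ⟨n + 1 + k, by omega, a2, fun j hj hj0 => ?_⟩
  rcases Nat.lt_trichotomy j n with h | h | h
  · obtain ⟨i, hi, hi2⟩ := hn.2 j h hj0
    exact ⟨i, by omega, hi2⟩
  · subst h
    exact ⟨k, by omega, by rw [a2, a3]; decide⟩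
  · by_contra hcon
    push Not at hcon
    obtain ⟨r, rfl⟩ : ∃ r, j = n + 1 + r := ⟨j - (n + 1), by omega⟩
    have hrk : r < k := by omega
    have her : e r = false := by rw [← a1 r hrk]; exact hj0
    have h2 := (he r).1 her
    obtain ⟨s, rfl⟩ : ∃ s, k = r + 1 + s := ⟨k - (r + 1), by omega⟩
    have h3 : e s = false := by
      rw [← hcon s (by omega), show n + 1 + r + 1 + s = n + 1 + (r + 1 + s) by ring]
      exact a2
    have h4 : P p e < P p (sh (r + 1) e) := by
      refine wu_lt hp hp2 (p := s) (fun i hi => ?_) h3 ?_ ((he s).1 h3) ?_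
      · rw [sh_apply, ← a1 (r + 1 + i) (by omega), ← hcon i (by omega)]
        congr 1; ring
      · rw [sh_apply]; exact a3
      · rw [sh_sh]
        exact (he _).2 a3
    linarith

lemma Rec.large (hp : 1 < p) (hp2 : p < 2) (he : WU p e) (h1 : P p e = 1) (hc : Un p c)
    (hz : ∃ n, c n = false) (B : ℕ) : ∃ n, B ≤ n ∧ Rec c e n := by
  classical
  induction B with
  | zero =>
    refine ⟨Nat.find hz, Nat.zero_le _, Nat.find_spec hz, fun j hj hj0 => ?_⟩
    exact absurd hj0 (Nat.find_min hz hj)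
  | succ B ih =>
    obtain ⟨n, h2, h3⟩ := ih
    obtain ⟨n', h4, h5⟩ := h3.next hp hp2 he h1 hc
    exact ⟨n', by omega, h5⟩

/-- the sequence which is a little larger -/
def up (n : ℕ) (c e : ℕ → Bool) : ℕ → Bool := glue n c (cons true (fun i => !e i))

lemma up_lt {n i : ℕ} (h : i < n) : up n c e i = c i := glue_lt _ _ h

lemma up_n (n : ℕ) : up n c e n = true := by simp [up, glue]

lemma sh_up (n : ℕ) : sh n (up n c e) = cons true (fun i => !e i) := sh_glue _ _ _

lemma sh_up1 (n : ℕ) : sh (n + 1) (up n c e) = fun i => !e i := by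
  have h := congrArg (sh 1) (sh_up (c := c) (e := e) n)
  rw [sh_sh, sh_cons] at h
  exact h

/-- the new sequence satisfies the weak conditions -/
lemma Rec.wu_up (hp : 1 < p) (he : WU p e) (h1 : P p e = 1) (hc : Un p c) {n : ℕ}
    (hn : Rec c e n) : WU p (up n c e) := by
  have hA : P p (fun i => !e i) = 1 / (p - 1) - 1 := by rw [P_compl hp, h1]
  have hlow : ∀ d, d ≤ n → ∀ m, m + d = n → up n c e m = false →
      P p (sh (m + 1) (up n c e)) ≤ 1 := by
    intro d
    induction d using Nat.strong_induction_on with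
    | _ d ih =>
      intro hd m hm hm0
      rcases Nat.eq_zero_or_pos d with rfl | hd0
      · rw [add_zero] at hm
        subst hm
        rw [up_n] at hm0
        exact absurd hm0 (by decide)
      · have hmn : m < n := by omega
        rw [up_lt hmn] at hm0
        obtain ⟨k, a1, a2, a3⟩ := first_diff hp he h1 hc hm0
        have hk : m + 1 + k ≤ n := by
          obtain ⟨i, hi, hi2⟩ := hn.2 m hmn hm0
          by_contra hcon
          exact hi2 (a1 i (by omega))
        have h0 := diff_eq hp (d := sh (m + 1) (up n c e)) (e := e) (p := k) (fun i hi => by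
          rw [sh_apply, up_lt (by omega)]; exact a1 i hi)
        rw [h1, sh_sh] at h0
        suffices hs : 0 ≤ (P p (sh k e) - P p (sh (m + 1 + k) (up n c e))) / p ^ k by linarith
        refine div_nonneg ?_ (by positivity)
        rcases Nat.lt_or_ge (m + 1 + k) n with h6 | h6
        · rw [P_succ hp (sh k e), P_succ hp (sh (m + 1 + k) (up n c e)), sh_sh, sh_sh, sh_apply,
            sh_apply, add_zero, add_zero, up_lt h6, a2, a3, dg_true, dg_false, ← sub_div]
          refine div_nonneg ?_ (by linarith)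
          have h7 := ih (n - (m + 1 + k)) (by omega) (by omega) (m + 1 + k) (by omega)
            (by rw [up_lt h6]; exact a2)
          have h8 := P_nonneg hp (sh (k + 1) e)
          linarith
        · have h7 : m + 1 + k = n := by omega
          rw [h7, P_succ hp (sh k e), P_succ hp (sh n (up n c e)), sh_sh, sh_sh, sh_apply,
            sh_apply, add_zero, add_zero, up_n, a3, ← sub_div, sh_up1, hA]
          refine div_nonneg ?_ (by linarith)
          have := (he k).2 a3
          linarith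
  intro m
  rcases Nat.lt_trichotomy m n with h | h | h
  · refine ⟨fun hm => hlow (n - m) (by omega) m (by omega) hm, fun hm => ?_⟩
    rw [up_lt h] at hm
    have h2 := (hc m).2 hm
    obtain ⟨s, hs⟩ : ∃ s, n = m + 1 + s := ⟨n - (m + 1), by omega⟩
    have h0 := diff_eq hp (d := sh (m + 1) c) (e := sh (m + 1) (up n c e)) (p := s)
      (fun i hi => by rw [sh_apply, sh_apply, up_lt (by omega)])
    rw [sh_sh, sh_sh, ← hs, sh_up, P_cons hp, hA, P_succ hp (sh n c), sh_sh, sh_apply, add_zero,
      hn.1, dg_true, dg_false, ← sub_div] at h0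
    have h3 := P_le hp (sh (n + 1) c)
    have h4 : 0 ≤ ((1 + (1 / (p - 1) - 1) - (0 + P p (sh (n + 1) c))) / p) / p ^ s := by
      refine div_nonneg (div_nonneg ?_ (by linarith)) (by positivity)
      linarith
    linarith
  · subst h
    refine ⟨fun hm => ?_, fun _ => ?_⟩
    · rw [up_n] at hm; exact absurd hm (by decide)
    · rw [sh_up1, hA]
  · obtain ⟨s, rfl⟩ : ∃ s, m = n + 1 + s := ⟨m - (n + 1), by omega⟩
    have h2 := (he.compl hp) s
    have e1 : up n c e (n + 1 + s) = !e s := by
      have := congrFun (sh_up1 (c := c) (e := e) n) s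
      rwa [sh_apply] at this
    have e2 : sh (n + 1 + s + 1) (up n c e) = sh (s + 1) (fun i => !e i) := by
      rw [← sh_up1 (c := c) (e := e) n, sh_sh, add_assoc]
    rw [e1, e2]
    exact h2

lemma P_up_gt (hp : 1 < p) (hp2 : p < 2) (h1 : P p e = 1) (hc : Un p c) {n : ℕ}
    (hn : c n = false) : P p c < P p (up n c e) := by
  have hA : P p (fun i => !e i) = 1 / (p - 1) - 1 := by rw [P_compl hp, h1]
  have h0 := diff_eq hp (d := c) (e := up n c e) (p := n) (fun i hi => (up_lt hi).symm)
  rw [sh_up, P_cons hp, hA, P_succ hp (sh n c), sh_sh, sh_apply, add_zero, hn, dg_true, dg_false,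
    ← sub_div] at h0
  have h2 := (hc n).1 hn
  have h5 : 1 < 1 / (p - 1) := by rw [lt_div_iff₀ (by linarith)]; linarith
  have h4 : 0 < ((1 + (1 / (p - 1) - 1) - (0 + P p (sh (n + 1) c))) / p) / p ^ n := by
    refine div_pos (div_pos ?_ (by linarith)) (by positivity)
    linarith
  linarith

end

/-- upper semicontinuity from the right of the smallest univoque base -/
theorem usc_right {x Q : ℝ} (hx : 0 < x) (hQ2 : Q < 2) {p : ℝ} (hp : p ∈ Ux x) (hpQ : p < Q) :
    ∃ z, x < z ∧ ∀ y, x < y → y < z → ∃ q ∈ Ux y, q < Q := by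
  obtain ⟨h1, _, c, hc, hU⟩ := mem_Ux.1 hp
  obtain ⟨m, hm⟩ := exists_true_of_pos (q := p) (d := c) (by rw [hc]; exact hx)
  by_cases hcase : ∃ q', 1 < q' ∧ q' < p ∧ Un q' c
  · obtain ⟨q'', h9, h10, h11⟩ := hcase
    refine ⟨P q'' c, by rw [← hc]; exact P_strict h9 h10 c hm, fun y hy1 hy2 => ?_⟩
    obtain ⟨q', h4, h5, h6⟩ := P_ivt h9 h10.le c (by rw [hc]; exact hy1) hy2
    exact ⟨q', mem_Ux.2 ⟨by linarith, by linarith, c, h6, h11.mono h9 h4.le⟩, by linarith⟩
  · push Not at hcase
    obtain ⟨e, he, he1⟩ := weak_one h1 hU hcase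
    have hp2 : p < 2 := by linarith
    -- there is a digit `0`
    have hz : ∃ n, c n = false := by
      by_contra hno
      push Not at hno
      have hall : ∀ n, c n = true := fun n => by simpa using hno n
      have hc1 : c = fun _ => true := funext hall
      obtain ⟨q', hq1, hq2⟩ := exists_between h1
      refine hcase q' hq1 hq2 fun n => ⟨fun h => ?_, fun _ => ?_⟩
      · rw [hall n] at h; exact absurd h (by decide)
      · rw [hc1, show sh (n + 1) (fun _ : ℕ => true) = fun _ => true from rfl, P_ones hq1]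
        linarith
    -- a late index
    have hQ1 : 1 < Q := by linarith
    have hQx : P Q c < x := by rw [← hc]; exact P_strict h1 hpQ c hm
    obtain ⟨B, hB⟩ : ∃ B : ℕ, ∀ n, B ≤ n → 1 / (Q - 1) / Q ^ n < x - P Q c := by
      have := (err_lim hQ1).eventually (gt_mem_nhds (show 0 < x - P Q c by linarith))
      rw [Filter.eventually_atTop] at this
      exact this
    obtain ⟨n, hn1, hn2⟩ := Rec.large h1 hp2 he he1 hU hz B
    have hW := hn2.wu_up h1 he he1 hU
    refine ⟨P p (up n c e), by rw [← hc]; exact P_up_gt h1 hp2 he1 hU hn2.1, fun y hy1 hy2 => ?_⟩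
    have h3 : P Q (up n c e) < y := by
      have h4 : P Q (up n c e) ≤ P Q c + 1 / (Q - 1) / Q ^ n :=
        P_agree hQ1 fun i hi => up_lt hi
      have h5 := hB n hn1
      linarith
    obtain ⟨q', h4, h5, h6⟩ := P_ivt h1 hpQ.le _ h3 hy2
    exact ⟨q', mem_Ux.2 ⟨by linarith, by linarith, _, h6, hW.un h1 h4⟩, h5⟩

/-- all level sets are closed in `(0, ∞)` -/
theorem closed_all {Q : ℝ} (hQ1 : 1 < Q) (hQ2 : Q < 2) {x : ℝ} (hx : 0 < x)
    (hcl : x ∈ closure (LvInf Q)) : x ∈ LvInf Q := by
  by_contra hxL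
  obtain ⟨y, hy1, hy2⟩ := mem_closure_iff_seq_limit.1 hcl
  have hne : ∀ k, y k ≠ x := fun k h => hxL (h ▸ hy1 k)
  -- weak expansions
  have hex : ∀ k, ∃ D, WU Q D ∧ P Q D = y k := fun k => exists_weak hQ1 (hy1 k).2
  choose D hD1 hD2 using hex
  -- no smaller base on the left side
  have hleft : ∀ q ∈ Ux x, q < Q → ∀ᶠ k in atTop, ¬ y k < x := by
    intro q hq hqQ
    obtain ⟨h1, h2, s, hs, hU⟩ := mem_Ux.1 hq
    obtain ⟨m, hm⟩ := exists_true_of_pos (q := q) (d := s) (by rw [hs]; exact hx)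
    have h3 : P Q s < x := by rw [← hs]; exact P_strict h1 hqQ s hm
    filter_upwards [hy2.eventually (lt_mem_nhds h3)] with k hk hlt
    obtain ⟨q', h4, h5, h6⟩ := P_ivt h1 hqQ.le s hk (by rw [hs]; exact hlt)
    have h7 : q' ∈ Ux (y k) := mem_Ux.2 ⟨by linarith, by linarith, s, h6, hU.mono h1 h4.le⟩
    have h8 := csInf_le (bdd_Ux (y k)) h7
    rw [(hy1 k).2] at h8
    linarith
  have hright : ∀ q ∈ Ux x, q < Q → ∀ᶠ k in atTop, ¬ x < y k := by
    intro q hq hqQ
    obtain ⟨z, hz, hz2⟩ := usc_right hx hQ2 hq hqQ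
    filter_upwards [hy2.eventually (gt_mem_nhds hz)] with k hk hlt
    obtain ⟨q', h7, h9⟩ := hz2 (y k) hlt hk
    have h8 := csInf_le (bdd_Ux (y k)) h7
    rw [(hy1 k).2] at h8
    linarith
  have hlow : ∀ q ∈ Ux x, Q ≤ q := by
    intro q hq
    by_contra hlt
    push Not at hlt
    obtain ⟨k, hk1, hk2⟩ := ((hleft q hq hlt).and (hright q hq hlt)).exists
    rcases lt_trichotomy (y k) x with h | h | h
    · exact hk1 h
    · exact hne k h
    · exact hk2 h
  -- upper bound
  have hup : ∀ δ : ℝ, 0 < δ → ∃ q ∈ Ux x, q < Q + δ := by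
    intro δ hδ
    by_cases hfr : ∃ᶠ k in atTop, y k < x
    · -- from the left
      obtain ⟨φ, hφ, hφ2⟩ := extraction_of_frequently_atTop hfr
      obtain ⟨D0, ψ, hψ, hD0⟩ := CompactSpace.tendsto_subseq (fun k => D (φ k))
      have hW : WU Q D0 := WU.lim hQ1 tendsto_const_nhds hD0 fun k => hD1 _
      have hP : P Q D0 = x := by
        have h1 := P_tendsto hQ1 (tendsto_const_nhds (x := Q)) hD0
        refine tendsto_nhds_unique h1 ?_
        have h2 : Tendsto (fun k => y (φ (ψ k))) atTop (𝓝 x) :=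
          hy2.comp (hφ.tendsto_atTop.comp hψ.tendsto_atTop)
        exact h2.congr fun k => (hD2 _).symm
      have hno : ∀ n, D0 n = true → 1 / (Q - 1) - 1 < P Q (sh (n + 1) D0) := by
        intro n hn
        refine lt_of_le_of_ne ((hW n).2 hn) fun heq => ?_
        obtain ⟨k, hk⟩ := (agree_eventually hD0 (n + 1)).exists
        have h1 := diff_eq hQ1 (d := D (φ (ψ k))) (e := D0) (p := n + 1) (fun i hi => hk i hi)
        have h2 := (hD1 (φ (ψ k)) n).2 (by
          have h3 := hk n (by omega)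
          simp only [Function.comp] at h3
          rw [h3]; exact hn)
        have h4 : (P Q (sh (n + 1) D0) - P Q (sh (n + 1) (D (φ (ψ k))))) / Q ^ (n + 1) ≤ 0 :=
          div_nonpos_of_nonpos_of_nonneg (by linarith) (by positivity)
        rw [hP, hD2] at h1
        have := hφ2 (ψ k)
        linarith
      by_cases hU : Un Q D0
      · exact ⟨Q, mem_Ux.2 ⟨hQ1, hQ2.le, D0, hP, hU⟩, by linarith⟩
      · obtain ⟨q, hq, hqQ⟩ := H2_gen hQ1 hQ2 D0 hW hno hU
        rw [hP] at hq
        exact ⟨q, hq, by linarith⟩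
    · -- from the right
      rw [not_frequently] at hfr
      obtain ⟨D0, ψ, hψ, hD0⟩ := CompactSpace.tendsto_subseq D
      have hP : P Q D0 = x := by
        have h1 := P_tendsto hQ1 (tendsto_const_nhds (x := Q)) hD0
        refine tendsto_nhds_unique h1 ?_
        have h2 : Tendsto (fun k => y (ψ k)) atTop (𝓝 x) := hy2.comp hψ.tendsto_atTop
        exact h2.congr fun k => (hD2 _).symm
      obtain ⟨q1, hq1, hq12⟩ := exists_between (lt_min hQ2 (show Q < Q + δ by linarith))
      have hq1' : 1 < q1 := by linarith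
      obtain ⟨m, hm⟩ := exists_true_of_pos (q := Q) (d := D0) (by rw [hP]; exact hx)
      have h3 : P q1 D0 < x := by rw [← hP]; exact P_strict hQ1 hq1 D0 hm
      have h4 := P_tendsto hq1' (tendsto_const_nhds (x := q1)) hD0
      have h5 := h4.eventually (gt_mem_nhds h3)
      have h6 := hψ.tendsto_atTop.eventually hfr
      obtain ⟨k, hk1, hk2⟩ := (h5.and h6).exists
      have hk3 : x < y (ψ k) := lt_of_le_of_ne (not_lt.1 hk2) (hne _).symm
      obtain ⟨q, h7, h8, h9⟩ := P_ivt hQ1 hq1.le (D (ψ k)) hk1 (by rw [hD2]; exact hk3)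
      refine ⟨q, mem_Ux.2 ⟨by linarith, ?_, D (ψ k), h9, (hD1 _).un hQ1 h7⟩, ?_⟩
      · have := min_le_left 2 (Q + δ); linarith
      · have := min_le_right 2 (Q + δ); linarith
  apply hxL
  refine ⟨hx, le_antisymm ?_ ?_⟩
  · refine le_of_forall_pos_lt_add fun δ hδ => ?_
    obtain ⟨q, hq, hq2⟩ := hup δ hδ
    exact lt_of_le_of_lt (csInf_le (bdd_Ux x) hq) hq2
  · obtain ⟨q, hq, _⟩ := hup 1 one_pos
    exact le_csInf ⟨q, hq⟩ hlow

end Pool.Agent.K3h15.UB
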